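import Pool.Agent.N920.FF.Form
import Pool.Agent.N920.RW.Asym

/-!
# Asymptotic bounds for colourings given by matrices of low rank
-/

namespace Pool.Agent.N920.FF

open Finset Real Filter Topology

open Pool.Agent.N920.TW (NoMono ramsey)

theorem noMono_one {V : Type} [Fintype V] (G : SimpleGraph V) (k : ℕ) (h : Fintype.card V < k) :
    NoMono G k :=
  ⟨SimpleGraph.cliqueFree_of_card_lt h, SimpleGraph.cliqueFree_of_card_lt h⟩

theorem ffOrder_pos {F : Type} [Field F] [Fintype F] (f : F → Bool) (k r : ℕ) (hk : 2 ≤ k) :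
    1 ≤ ffOrder f k r := by
  refine le_csSup (ffOrder_bdd f k r) ⟨Fin 1, inferInstance, 0, Fintype.card_fin 1, ?_, ?_,
    noMono_one _ k (by rw [Fintype.card_fin]; omega)⟩
  · ext i j
    rfl
  · rw [Matrix.rank_zero]
    exact Nat.zero_le _

theorem adjOrder_pos (k r : ℕ) (hk : 2 ≤ k) : 1 ≤ adjOrder k r := by
  classical
  refine le_csSup (adjOrder_bdd k r) ⟨Fin 1, inferInstance, ⊥, Fintype.card_fin 1, ?_,
    noMono_one _ k (by rw [Fintype.card_fin]; omega)⟩
  have e : ∀ A : Matrix (Fin 1) (Fin 1) (ZMod 2), A 0 0 = 0 → A.rank ≤ r := by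
    intro A hA
    have : A = 0 := by
      ext i j
      rw [Subsingleton.elim i 0, Subsingleton.elim j 0, hA]
      rfl
    rw [this, Matrix.rank_zero]
    exact Nat.zero_le _
  apply e
  rw [SimpleGraph.adjMatrix_apply]
  simp

theorem lower_real (q k r N : ℕ) (hq : 2 ≤ q) (hk : 2 ≤ k) (hN : 1 ≤ N)
    (h : ∀ n : ℕ, 2 * n ^ k * (2 * (2 * q ^ (r / 2 + 1))) ^ k *
        (2 * q - 1 + 1) ^ (((2 * q - 1) * q * (r / 2) + 1).choose 2) <
      k.factorial * ((q ^ (r / 2)) ^ 2) ^ k *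
        (2 * q - 1) ^ (((2 * q - 1) * q * (r / 2) + 1).choose 2) → n ≤ N) :
    (r / 2 : ℝ) * log q + log k - ((q : ℝ) ^ 3 + 2 * log q + 5) * (1 + (r : ℝ) ^ 2 / k) ≤ log N := by
  obtain ⟨hl1, hl2⟩ := Pool.Agent.N920.RW.log_two_bounds
  set m := r / 2 with hm
  set a := 2 * q - 1 with ha
  set T := (a * q * m + 1).choose 2 with hT
  have hkpos : (0 : ℝ) < k := by
    have : 0 < k := by omega
    exact_mod_cast this
  have hk2 : (2 : ℝ) ≤ k := by exact_mod_cast hk
  have hq2 : (2 : ℝ) ≤ q := by exact_mod_cast hq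
  have hapos : (0 : ℝ) < a := by
    have : 0 < a := by omega
    exact_mod_cast this
  have haq : (a : ℝ) + 1 = 2 * q := by
    have : a + 1 = 2 * q := by omega
    exact_mod_cast this
  have hlogq : 0 < log (q : ℝ) := log_pos (by linarith)
  have hlog4 : log 4 < 1.4 := by
    have : log 4 = 2 * log 2 := by
      rw [show (4 : ℝ) = 2 ^ 2 by norm_num, log_pow]
      norm_num
    rw [this]
    linarith
  have hlog4pos : 0 < log 4 := log_pos (by norm_num)
  set ℓ := log (((a : ℝ) + 1) / a) with hℓ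
  have hℓ0 : 0 ≤ ℓ := log_nonneg (by
    rw [le_div_iff₀ hapos]
    linarith)
  have hℓ1 : ℓ ≤ 1 / a := by
    have := log_le_sub_one_of_pos (show 0 < ((a : ℝ) + 1) / a by positivity)
    have e : ((a : ℝ) + 1) / a - 1 = 1 / a := by field_simp; ring
    rw [e] at this
    exact this
  -- the bound for `T ℓ`
  have hTℓ : (T : ℝ) * ℓ ≤ 2 * (q : ℝ) ^ 3 * (m : ℝ) ^ 2 := by
    have hTs : (T : ℝ) ≤ ((a : ℝ) * q * m) ^ 2 := by
      have h1 : T ≤ (a * q * m) ^ 2 := by
        rw [hT, Nat.choose_two_right]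
        rcases Nat.eq_zero_or_pos (a * q * m) with h0 | h0
        · rw [h0]
          norm_num
        · apply Nat.div_le_of_le_mul
          rw [Nat.add_sub_cancel]
          nlinarith
      exact_mod_cast h1
    have h2 : (T : ℝ) * ℓ ≤ ((a : ℝ) * q * m) ^ 2 * (1 / a) :=
      mul_le_mul hTs hℓ1 hℓ0 (by positivity)
    have h3 : ((a : ℝ) * q * m) ^ 2 * (1 / a) = a * (q : ℝ) ^ 2 * (m : ℝ) ^ 2 := by
      field_simp
    rw [h3] at h2
    refine h2.trans ?_
    have h4 : (a : ℝ) * (q : ℝ) ^ 2 * (m : ℝ) ^ 2 ≤ (2 * q) * (q : ℝ) ^ 2 * (m : ℝ) ^ 2 := by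
      apply mul_le_mul_of_nonneg_right _ (by positivity)
      apply mul_le_mul_of_nonneg_right _ (by positivity)
      linarith
    calc _ ≤ _ := h4
      _ = _ := by ring
  set x : ℝ := (k / exp 1) * ((q : ℝ) ^ m / (4 * q)) * exp (-((T * ℓ + log 4) / k)) with hx
  have hxpos : 0 < x := by rw [hx]; positivity
  have hlogx : log x = log k - 1 + (m * log q - log 4 - log q) - (T * ℓ + log 4) / k := by
    rw [hx, log_mul (by positivity) (exp_pos _).ne', log_exp, log_mul (by positivity) (by positivity),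
      log_div hkpos.ne' (exp_pos _).ne', log_exp, log_div (by positivity) (by positivity),
      log_mul (by norm_num) (by positivity), log_pow]
    ring
  have hmr : (r : ℝ) ≤ 2 * m + 1 := by
    have : r ≤ 2 * m + 1 := by omega
    exact_mod_cast this
  have hmr2 : 2 * (m : ℝ) ≤ r := by
    have : 2 * m ≤ r := by omega
    exact_mod_cast this
  have hgoal : (r / 2 : ℝ) * log q + log k - ((q : ℝ) ^ 3 + 2 * log q + 5) * (1 + (r : ℝ) ^ 2 / k) ≤
      log x - log 2 := by
    rw [hlogx]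
    have e1 : (T * ℓ + log 4) / k ≤ (q : ℝ) ^ 3 * ((r : ℝ) ^ 2 / k) + log 4 / 2 := by
      rw [add_div]
      have f1 : T * ℓ / k ≤ (q : ℝ) ^ 3 * ((r : ℝ) ^ 2 / k) := by
        rw [← mul_div_assoc]
        apply div_le_div_of_nonneg_right _ hkpos.le
        refine hTℓ.trans ?_
        have f3 : (m : ℝ) ^ 2 ≤ (r : ℝ) ^ 2 / 2 := by nlinarith [Nat.cast_nonneg (α := ℝ) m]
        have f4 : 0 ≤ 2 * (q : ℝ) ^ 3 := by positivity
        calc 2 * (q : ℝ) ^ 3 * (m : ℝ) ^ 2 ≤ 2 * (q : ℝ) ^ 3 * ((r : ℝ) ^ 2 / 2) :=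
              mul_le_mul_of_nonneg_left f3 f4
          _ = _ := by ring
      have f2 : log 4 / k ≤ log 4 / 2 := div_le_div_of_nonneg_left hlog4pos.le (by norm_num) hk2
      linarith
    have e2 : (r / 2 : ℝ) * log q ≤ m * log q + log q / 2 := by nlinarith
    have e3 : 0 ≤ (r : ℝ) ^ 2 / k := by positivity
    have e4 : 0 ≤ (q : ℝ) ^ 3 := by positivity
    nlinarith
  rcases lt_or_ge x 1 with hx1 | hx1
  · have h1 : log x ≤ 0 := log_nonpos hxpos.le hx1.le
    have h2 : 0 ≤ log (N : ℝ) := log_nonneg (by exact_mod_cast hN)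
    linarith
  · set n := ⌊x⌋₊ with hn
    have hnx : (n : ℝ) ≤ x := Nat.floor_le hxpos.le
    have hn1 : 1 ≤ n := Nat.le_floor (by simpa using hx1)
    have hnx2 : x ≤ 2 * n := by
      have h1 := Nat.lt_floor_add_one x
      have h2 : (1 : ℝ) ≤ n := by exact_mod_cast hn1
      linarith
    have hcond : 2 * n ^ k * (2 * (2 * q ^ (m + 1))) ^ k * (a + 1) ^ T <
        k.factorial * ((q ^ m) ^ 2) ^ k * a ^ T := by
      have h1 : 2 * (n : ℝ) ^ k * (2 * (2 * (q : ℝ) ^ (m + 1))) ^ k * ((a : ℝ) + 1) ^ T <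
          k.factorial * (((q : ℝ) ^ m) ^ 2) ^ k * (a : ℝ) ^ T := by
        have h2 : ((n : ℝ)) ^ k ≤ x ^ k := pow_le_pow_left₀ (by positivity) hnx k
        have h3 : x ^ k = (k : ℝ) ^ k / exp 1 ^ k * ((q : ℝ) ^ m / (4 * q)) ^ k *
            exp (-(T * ℓ + log 4)) := by
          rw [hx, mul_pow, mul_pow, div_pow, ← exp_nat_mul (-((T * ℓ + log 4) / k)) k]
          congr 2
          field_simp
        have h4 : (k : ℝ) ^ k / exp 1 ^ k ≤ k.factorial := by
          have g1 := Real.pow_div_factorial_le_exp (k : ℝ) hkpos.le k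
          rw [div_le_iff₀ (by positivity)] at g1
          rw [div_le_iff₀ (by positivity), ← exp_nat_mul, mul_one]
          linarith
        have h5 : exp (-(T * ℓ + log 4)) * ((a : ℝ) + 1) ^ T = (a : ℝ) ^ T / 4 := by
          rw [neg_add, exp_add, exp_neg (log 4), exp_log (by norm_num), exp_neg, exp_nat_mul, hℓ,
            exp_log (by positivity), div_pow]
          field_simp
        have h6 : ((q : ℝ) ^ m / (4 * q)) ^ k * (2 * (2 * (q : ℝ) ^ (m + 1))) ^ k =
            (((q : ℝ) ^ m) ^ 2) ^ k := by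
          rw [← mul_pow]
          congr 1
          rw [pow_succ]
          field_simp
          ring
        have h7 : 2 * x ^ k * (2 * (2 * (q : ℝ) ^ (m + 1))) ^ k * ((a : ℝ) + 1) ^ T =
            ((k : ℝ) ^ k / exp 1 ^ k) * ((((q : ℝ) ^ m) ^ 2) ^ k * (a : ℝ) ^ T) / 2 := by
          rw [h3, ← h6]
          have : 2 * ((k : ℝ) ^ k / exp 1 ^ k * ((q : ℝ) ^ m / (4 * q)) ^ k *
              exp (-(T * ℓ + log 4))) * (2 * (2 * (q : ℝ) ^ (m + 1))) ^ k * ((a : ℝ) + 1) ^ T =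
              2 * ((k : ℝ) ^ k / exp 1 ^ k) * (((q : ℝ) ^ m / (4 * q)) ^ k *
                (2 * (2 * (q : ℝ) ^ (m + 1))) ^ k) *
                (exp (-(T * ℓ + log 4)) * ((a : ℝ) + 1) ^ T) := by ring
          rw [this, h5]
          ring
        have h8 : 0 < (((q : ℝ) ^ m) ^ 2) ^ k * (a : ℝ) ^ T := by positivity
        calc 2 * (n : ℝ) ^ k * (2 * (2 * (q : ℝ) ^ (m + 1))) ^ k * ((a : ℝ) + 1) ^ T ≤
            2 * x ^ k * (2 * (2 * (q : ℝ) ^ (m + 1))) ^ k * ((a : ℝ) + 1) ^ T := by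
              apply mul_le_mul_of_nonneg_right _ (by positivity)
              apply mul_le_mul_of_nonneg_right _ (by positivity)
              linarith
          _ = ((k : ℝ) ^ k / exp 1 ^ k) * ((((q : ℝ) ^ m) ^ 2) ^ k * (a : ℝ) ^ T) / 2 := h7
          _ ≤ k.factorial * ((((q : ℝ) ^ m) ^ 2) ^ k * (a : ℝ) ^ T) / 2 := by
              apply div_le_div_of_nonneg_right _ (by norm_num)
              exact mul_le_mul_of_nonneg_right h4 h8.le
          _ < k.factorial * ((((q : ℝ) ^ m) ^ 2) ^ k * (a : ℝ) ^ T) := by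
              have : (0 : ℝ) < k.factorial * ((((q : ℝ) ^ m) ^ 2) ^ k * (a : ℝ) ^ T) := by positivity
              linarith
          _ = _ := by ring
      exact_mod_cast h1
    have h1 := h n hcond
    have h2 : (n : ℝ) ≤ N := by exact_mod_cast h1
    have h3 : (0 : ℝ) < n := by exact_mod_cast hn1
    have h4 := log_le_log hxpos hnx2
    rw [log_mul (by norm_num) h3.ne'] at h4
    have h5 := log_le_log h3 h2
    linarith

theorem upper_real (q k r N c : ℕ) (hq : 2 ≤ q) (hk : 2 ≤ k) (hN : 1 ≤ N) (hc : c ≤ 2)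
    (h : N ≤ q ^ (r / 2 + c) * (k - 1)) :
    log N ≤ (r / 2 : ℝ) * log q + log k + ((q : ℝ) ^ 3 + 2 * log q + 5) * (1 + (r : ℝ) ^ 2 / k) := by
  have hkpos : (0 : ℝ) < k := by
    have : 0 < k := by omega
    exact_mod_cast this
  have hq2 : (2 : ℝ) ≤ q := by exact_mod_cast hq
  have hlogq : 0 < log (q : ℝ) := log_pos (by linarith)
  have h1 : N ≤ q ^ (r / 2 + c) * k := h.trans (Nat.mul_le_mul_left _ (by omega))
  have h2 : (N : ℝ) ≤ (q : ℝ) ^ (r / 2 + c) * k := by exact_mod_cast h1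
  have hNpos : (0 : ℝ) < N := by exact_mod_cast hN
  have h3 := log_le_log hNpos h2
  rw [log_mul (by positivity) hkpos.ne', log_pow] at h3
  have h4 : ((r / 2 + c : ℕ) : ℝ) ≤ r / 2 + 2 := by
    push_cast
    have e1 : ((r / 2 : ℕ) : ℝ) ≤ (r : ℝ) / (2 : ℕ) := Nat.cast_div_le
    have e2 : (c : ℝ) ≤ 2 := by exact_mod_cast hc
    push_cast at e1
    linarith
  have h5 : ((r / 2 + c : ℕ) : ℝ) * log q ≤ (r / 2 + 2) * log q :=
    mul_le_mul_of_nonneg_right h4 hlogq.le
  have e3 : 0 ≤ (r : ℝ) ^ 2 / k := by positivity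
  have e4 : 0 ≤ (q : ℝ) ^ 3 := by positivity
  nlinarith

/-- Two-sided bound for matrices over a finite field. -/
theorem ff_bounds (F : Type) [Field F] [Fintype F] (f : F → Bool) (hf : ∃ a b, f a ≠ f b)
    (k r : ℕ) (hk : 2 ≤ k) :
    |log (ffOrder f k r) - ((r / 2 : ℝ) * log (Fintype.card F) + log k)| ≤
      ((Fintype.card F : ℝ) ^ 3 + 2 * log (Fintype.card F) + 5) * (1 + (r : ℝ) ^ 2 / k) := by
  have hq : 2 ≤ Fintype.card F := Fintype.one_lt_card
  have h1 := lower_real (Fintype.card F) k r (ffOrder f k r) hq hk (ffOrder_pos f k r hk)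
    (fun n hn => le_ffOrder f hf (r / 2) k n r (by omega) hn)
  have h2 := upper_real (Fintype.card F) k r (ffOrder f k r) 2 hq hk (ffOrder_pos f k r hk) le_rfl
    (ffOrder_le f k r)
  rw [abs_le]
  constructor <;> linarith

/-- Two-sided bound for adjacency matrices. -/
theorem adj_bounds (k r : ℕ) (hk : 2 ≤ k) :
    |log (adjOrder k r) - ((r / 2 : ℝ) * log 2 + log k)| ≤ 15 * (1 + (r : ℝ) ^ 2 / k) := by
  obtain ⟨hl1, hl2⟩ := Pool.Agent.N920.RW.log_two_bounds
  have h1 := lower_real 2 k r (adjOrder k r) le_rfl hk (adjOrder_pos k r hk)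
    (fun n hn => le_adjOrder (r / 2) k n r (by omega) (by rw [ZMod.card]; exact hn))
  have h2 := upper_real 2 k r (adjOrder k r) 1 le_rfl hk (adjOrder_pos k r hk) (by norm_num)
    (adjOrder_le k r)
  push_cast at h1 h2
  have h3 : 0 ≤ (r : ℝ) ^ 2 / k := by positivity
  rw [abs_le]
  constructor <;> nlinarith

theorem growth_of_bounds (N : ℕ → ℕ) (r : ℕ → ℕ) (L C : ℝ) (hr : Tendsto r atTop atTop)
    (h1 : Tendsto (fun k : ℕ => log k / r k) atTop (𝓝 0))
    (h2 : Tendsto (fun k : ℕ => (r k : ℝ) / k) atTop (𝓝 0))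
    (hb : ∀ᶠ k in atTop, |log (N k) - ((r k / 2 : ℝ) * L + log k)| ≤ C * (1 + (r k : ℝ) ^ 2 / k)) :
    Tendsto (fun k => log (N k) / r k) atTop (𝓝 (L / 2)) := by
  have hrr : Tendsto (fun k => (r k : ℝ)) atTop atTop := tendsto_natCast_atTop_atTop.comp hr
  have h3 : Tendsto (fun k : ℕ => C * (1 / (r k : ℝ) + (r k : ℝ) / k)) atTop (𝓝 0) := by
    have e1 : Tendsto (fun k : ℕ => 1 / (r k : ℝ)) atTop (𝓝 0) := tendsto_const_nhds.div_atTop hrr
    simpa using (e1.add h2).const_mul C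
  have h4 : ∀ᶠ k in atTop, C * (1 + (r k : ℝ) ^ 2 / k) / r k = C * (1 / (r k : ℝ) + (r k : ℝ) / k) := by
    filter_upwards [hrr.eventually_gt_atTop 0, eventually_ge_atTop 1] with k hk hk1
    have hk1' : (0 : ℝ) < k := by exact_mod_cast hk1
    field_simp
  refine Pool.Agent.N920.RW.squeeze2 (fun k => log (N k)) (fun k => (r k : ℝ))
    (fun k => log k + C * (1 + (r k : ℝ) ^ 2 / k)) (fun k => C * (1 + (r k : ℝ) ^ 2 / k) - log k)
    (L / 2) (hrr.eventually_gt_atTop 0) ?_ ?_ ?_ ?_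
  · have := h1.add h3
    rw [add_zero] at this
    refine this.congr' ?_
    filter_upwards [h4] with k hk
    rw [add_div, hk]
  · have := h3.sub h1
    rw [sub_zero] at this
    refine this.congr' ?_
    filter_upwards [h4] with k hk
    rw [sub_div, hk]
  · filter_upwards [hb] with k hk
    rw [abs_le] at hk
    linarith
  · filter_upwards [hb] with k hk
    rw [abs_le] at hk
    linarith

end Pool.Agent.N920.FF
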