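import Pool.Agent.N920.RW.Base

/-!
# Random vectors in a space with a nondegenerate form

Counting of monochromatic sequences by a graph container (Kleitman-Winston) argument.
-/

namespace Pool.Agent.N920.FF

open Finset

open Classical

section variance

variable {Ω F : Type*} [AddCommGroup Ω] [Fintype Ω] [Field F] [Fintype F]

theorem variance (B : Ω → Ω → F) (hsub : ∀ x x' y, B (x - x') y = B x y - B x' y)
    (hker : ∀ z, z ≠ 0 → Fintype.card F * (univ.filter (fun y => B z y = 0)).card ≤ Fintype.card Ω)
    (X : Finset Ω) :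
    ∑ y : Ω, ∑ c : F, ((Fintype.card F : ℝ) * (X.filter (fun x => B x y = c)).card - X.card) ^ 2 ≤
      (Fintype.card F : ℝ) ^ 2 * X.card * Fintype.card Ω := by
  set q : ℝ := ((Fintype.card F : ℕ) : ℝ) with hq
  set N : ℝ := ((Fintype.card Ω : ℕ) : ℝ) with hN
  have hqpos : 0 < q := by
    rw [hq]
    exact_mod_cast Fintype.card_pos
  have hA : ∀ y : Ω, ∑ c : F, (((X.filter (fun x => B x y = c)).card : ℝ)) = X.card := by
    intro y
    have := card_eq_sum_card_fiberwise (s := X) (t := univ) (f := fun x => B x y)
      (fun x _ => mem_coe.2 (mem_univ _))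
    rw [this]
    push_cast
    rfl
  have hB : ∀ y : Ω, ∑ c : F, (((X.filter (fun x => B x y = c)).card : ℝ)) ^ 2 =
      ∑ x ∈ X, ∑ x' ∈ X, (if B x y = B x' y then 1 else 0) := by
    intro y
    have h1 : ∀ c : F, (((X.filter (fun x => B x y = c)).card : ℝ)) ^ 2 =
        ∑ x ∈ X, ∑ x' ∈ X, (if B x y = c then 1 else 0) * (if B x' y = c then 1 else 0) := by
      intro c
      rw [← sum_mul_sum, sq]
      congr 1 <;> rw [sum_boole]
    rw [sum_congr rfl (fun c _ => h1 c), sum_comm]
    refine sum_congr rfl (fun x _ => ?_)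
    rw [sum_comm]
    refine sum_congr rfl (fun x' _ => ?_)
    have h2 : ∀ c : F, (if B x y = c then (1 : ℝ) else 0) * (if B x' y = c then 1 else 0) =
        if B x y = c then (if B x y = B x' y then 1 else 0) else 0 := by
      intro c
      by_cases h3 : B x y = c
      · rw [if_pos h3, if_pos h3, one_mul, h3]
        by_cases h4 : B x' y = c
        · rw [if_pos h4, if_pos h4.symm]
        · rw [if_neg h4, if_neg (fun h => h4 h.symm)]
      · rw [if_neg h3, if_neg h3, zero_mul]
    rw [sum_congr rfl (fun c _ => h2 c)]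
    simp
  have hC : ∑ y : Ω, ∑ c : F, (((X.filter (fun x => B x y = c)).card : ℝ)) ^ 2 ≤
      X.card * N + X.card ^ 2 * N / q := by
    rw [sum_congr rfl (fun y _ => hB y), sum_comm]
    have h1 : ∀ x ∈ X, ∑ y : Ω, ∑ x' ∈ X, (if B x y = B x' y then (1 : ℝ) else 0) ≤
        N + X.card * N / q := by
      intro x hx
      rw [sum_comm]
      have h2 : ∀ x' ∈ X, ∑ y : Ω, (if B x y = B x' y then (1 : ℝ) else 0) ≤
          (if x' = x then N else 0) + N / q := by
        intro x' _
        rw [sum_boole]
        by_cases h3 : x' = x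
        · rw [if_pos h3]
          have h4 : ((univ.filter (fun y => B x y = B x' y)).card : ℝ) ≤ N := by
            rw [hN]
            exact_mod_cast card_le_univ _
          have h5 : 0 ≤ N / q := by positivity
          linarith
        · rw [if_neg h3, zero_add, le_div_iff₀ hqpos]
          have h4 := hker (x - x') (sub_ne_zero.2 (fun h => h3 h.symm))
          have h5 : (univ.filter (fun y => B (x - x') y = 0)) = univ.filter (fun y => B x y = B x' y) := by
            ext y
            rw [mem_filter, mem_filter, hsub, sub_eq_zero]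
          rw [h5] at h4
          rw [mul_comm]
          rw [hq, hN]
          exact_mod_cast h4
      refine (sum_le_sum h2).trans ?_
      rw [sum_add_distrib, sum_ite_eq' X x, if_pos hx, sum_const, nsmul_eq_mul]
      rw [mul_div_assoc]
    refine (sum_le_sum h1).trans ?_
    rw [sum_const, nsmul_eq_mul]
    have : (X.card : ℝ) * (N + X.card * N / q) = X.card * N + X.card ^ 2 * N / q := by ring
    rw [this]
  have hD : ∑ y : Ω, ∑ c : F, (q * (X.filter (fun x => B x y = c)).card - X.card) ^ 2 =
      q ^ 2 * (∑ y : Ω, ∑ c : F, (((X.filter (fun x => B x y = c)).card : ℝ)) ^ 2) -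
        q * X.card ^ 2 * N := by
    have h1 : ∀ y : Ω, ∑ c : F, (q * (X.filter (fun x => B x y = c)).card - X.card) ^ 2 =
        q ^ 2 * (∑ c : F, (((X.filter (fun x => B x y = c)).card : ℝ)) ^ 2) - q * X.card ^ 2 := by
      intro y
      have h2 : ∀ c : F, (q * ((X.filter (fun x => B x y = c)).card : ℝ) - X.card) ^ 2 =
          q ^ 2 * (((X.filter (fun x => B x y = c)).card : ℝ)) ^ 2 -
            2 * q * X.card * ((X.filter (fun x => B x y = c)).card : ℝ) + (X.card : ℝ) ^ 2 := by
        intro c
        ring
      rw [sum_congr rfl (fun c _ => h2 c), sum_add_distrib, sum_sub_distrib, ← mul_sum, ← mul_sum,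
        hA y, sum_const, nsmul_eq_mul, card_univ, ← hq]
      ring
    rw [sum_congr rfl (fun y _ => h1 y), sum_sub_distrib, ← mul_sum, sum_const, nsmul_eq_mul,
      card_univ, ← hN]
    ring
  rw [hD]
  have h1 := mul_le_mul_of_nonneg_left hC (show 0 ≤ q ^ 2 by positivity)
  have h2 : q ^ 2 * (X.card * N + X.card ^ 2 * N / q) = q ^ 2 * X.card * N + q * X.card ^ 2 * N := by
    field_simp
  linarith

/-- Few vertices have few neighbours in a large set. -/
theorem few_bad (B : Ω → Ω → F) (hsub : ∀ x x' y, B (x - x') y = B x y - B x' y)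
    (hker : ∀ z, z ≠ 0 → Fintype.card F * (univ.filter (fun y => B z y = 0)).card ≤ Fintype.card Ω)
    (c : F) (U : Finset Ω) :
    (univ.filter (fun x => 2 * Fintype.card F * (U.filter (fun y => B x y = c)).card < U.card)).card *
      U.card ≤ 4 * Fintype.card F ^ 2 * Fintype.card Ω := by
  set X := univ.filter (fun x => 2 * Fintype.card F * (U.filter (fun y => B x y = c)).card < U.card)
    with hX
  set q : ℝ := ((Fintype.card F : ℕ) : ℝ) with hq
  have hqpos : 0 < q := by
    rw [hq]
    exact_mod_cast Fintype.card_pos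
  have hvar := variance B hsub hker X
  rw [← hq] at hvar
  have h1 : ∑ y ∈ U, (q * ((X.filter (fun x => B x y = c)).card : ℝ) - X.card) ^ 2 ≤
      q ^ 2 * X.card * Fintype.card Ω := by
    refine le_trans ?_ hvar
    refine le_trans (sum_le_sum_of_subset_of_nonneg (subset_univ U) (fun _ _ _ => sq_nonneg _)) ?_
    refine sum_le_sum (fun y _ => ?_)
    exact single_le_sum (f := fun c => (q * ((X.filter (fun x => B x y = c)).card : ℝ) - X.card) ^ 2)
      (fun _ _ => sq_nonneg _) (mem_univ c)
  have h2 : ∑ y ∈ U, ((X.filter (fun x => B x y = c)).card : ℝ) =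
      ∑ x ∈ X, ((U.filter (fun y => B x y = c)).card : ℝ) := by
    have e1 : ∀ y, ((X.filter (fun x => B x y = c)).card : ℝ) = ∑ x ∈ X, if B x y = c then 1 else 0 :=
      fun y => (sum_boole _ _).symm
    have e2 : ∀ x, ((U.filter (fun y => B x y = c)).card : ℝ) = ∑ y ∈ U, if B x y = c then 1 else 0 :=
      fun x => (sum_boole _ _).symm
    rw [sum_congr rfl (fun y _ => e1 y), sum_congr rfl (fun x _ => e2 x), sum_comm]
  have h3 : 2 * q * ∑ x ∈ X, ((U.filter (fun y => B x y = c)).card : ℝ) ≤ X.card * U.card := by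
    rw [mul_sum]
    have e1 : ∀ x ∈ X, 2 * q * ((U.filter (fun y => B x y = c)).card : ℝ) ≤ U.card := by
      intro x hx
      have := (mem_filter.1 hx).2.le
      rw [hq]
      exact_mod_cast this
    refine (sum_le_sum e1).trans ?_
    rw [sum_const, nsmul_eq_mul]
  have h4 : (X.card : ℝ) * U.card / 2 ≤
      ∑ y ∈ U, ((X.card : ℝ) - q * ((X.filter (fun x => B x y = c)).card : ℝ)) := by
    rw [sum_sub_distrib, sum_const, nsmul_eq_mul, ← mul_sum, h2]
    linarith
  have h5 : (∑ y ∈ U, ((X.card : ℝ) - q * ((X.filter (fun x => B x y = c)).card : ℝ))) ^ 2 ≤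
      U.card * ∑ y ∈ U, ((X.card : ℝ) - q * ((X.filter (fun x => B x y = c)).card : ℝ)) ^ 2 :=
    sq_sum_le_card_mul_sum_sq
  have h6 : ∑ y ∈ U, ((X.card : ℝ) - q * ((X.filter (fun x => B x y = c)).card : ℝ)) ^ 2 =
      ∑ y ∈ U, (q * ((X.filter (fun x => B x y = c)).card : ℝ) - X.card) ^ 2 := by
    refine sum_congr rfl (fun y _ => ?_)
    ring
  rw [h6] at h5
  have h7 : ((X.card : ℝ) * U.card / 2) ^ 2 ≤ U.card * (q ^ 2 * X.card * Fintype.card Ω) := by
    refine (pow_le_pow_left₀ (by positivity) h4 2).trans (h5.trans ?_)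
    exact mul_le_mul_of_nonneg_left h1 (Nat.cast_nonneg _)
  have h8 : (X.card : ℝ) * U.card ≤ 4 * q ^ 2 * Fintype.card Ω := by
    rcases (show (0 : ℝ) ≤ (X.card : ℝ) * U.card by positivity).eq_or_lt with h9 | h9
    · rw [← h9]
      positivity
    · have h10 : ((X.card : ℝ) * U.card) * ((X.card : ℝ) * U.card) ≤
          ((X.card : ℝ) * U.card) * (4 * q ^ 2 * Fintype.card Ω) := by nlinarith
      exact le_of_mul_le_mul_left h10 h9
  rw [hq] at h8
  exact_mod_cast h8

end variance

section count

variable {Ω : Type*} [Fintype Ω]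

/-- Sequences in `U` all of whose pairs are in the relation `col`. -/
noncomputable def cs (col : Ω → Ω → Prop) (k : ℕ) (U : Finset Ω) : Finset (Fin k → Ω) :=
  univ.filter (fun z => (∀ i, z i ∈ U) ∧ ∀ i j, i < j → col (z i) (z j))

theorem cs_succ (col : Ω → Ω → Prop) (k : ℕ) (U : Finset Ω) :
    (cs col (k + 1) U).card ≤ ∑ x ∈ U, (cs col k (U.filter (col x))).card := by
  have h1 : (cs col (k + 1) U).card ≤
      (U.sigma (fun x => cs col k (U.filter (col x)))).card := by
    refine card_le_card_of_injOn (fun z => (⟨z 0, Fin.tail z⟩ : Σ _ : Ω, (Fin k → Ω))) ?_ ?_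
    · intro z hz
      obtain ⟨-, h1, h2⟩ := mem_filter.1 (mem_coe.1 hz)
      rw [mem_coe, mem_sigma]
      refine ⟨h1 0, mem_filter.2 ⟨mem_univ _, ?_, ?_⟩⟩
      · intro i
        exact mem_filter.2 ⟨h1 i.succ, h2 0 i.succ (Fin.succ_pos i)⟩
      · intro i j hij
        exact h2 i.succ j.succ (Fin.succ_lt_succ_iff.2 hij)
    · intro z _ z' _ h
      simp only [Sigma.mk.injEq, heq_eq_eq] at h
      rw [← Fin.cons_self_tail z, ← Fin.cons_self_tail z', h.1, h.2]
  refine h1.trans ?_
  rw [card_sigma]

/-- The container bound. -/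
theorem kw (col : Ω → Ω → Prop) (a u : ℕ) (ha : 1 ≤ a) (hu : 1 ≤ u)
    (hbad : ∀ U : Finset Ω, (univ.filter (fun x => a * U.card < (a + 1) *
      (U.filter (col x)).card)).card * U.card ≤ u ^ 2) (k : ℕ) :
    ∀ (s : ℕ) (U : Finset Ω), U.card * a ^ s ≤ u * (a + 1) ^ s →
      (cs col k U).card * a ^ ((s + 1).choose 2) ≤ (2 * u) ^ k * (a + 1) ^ ((s + 1).choose 2) := by
  induction k with
  | zero =>
    intro s U _
    have h1 : (cs col 0 U).card ≤ 1 := by
      refine (card_le_univ _).trans ?_
      simp
    have h2 : a ^ ((s + 1).choose 2) ≤ (a + 1) ^ ((s + 1).choose 2) :=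
      Nat.pow_le_pow_left (by omega) _
    rw [pow_zero]
    exact Nat.mul_le_mul h1 h2
  | succ k ihk =>
    intro s
    induction s with
    | zero =>
      intro U hU
      rw [pow_zero, pow_zero, mul_one, mul_one] at hU
      have e0 : (0 + 1).choose 2 = 0 := rfl
      rw [e0, pow_zero, pow_zero, mul_one, mul_one]
      refine (cs_succ col k U).trans ?_
      have h1 : ∀ x ∈ U, (cs col k (U.filter (col x))).card ≤ (2 * u) ^ k := by
        intro x _
        have h2 := ihk 0 (U.filter (col x)) (by
          rw [pow_zero, pow_zero, mul_one, mul_one]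
          exact (card_le_card (filter_subset _ _)).trans hU)
        rw [e0, pow_zero, pow_zero, mul_one, mul_one] at h2
        exact h2
      refine (sum_le_card_nsmul _ _ _ h1).trans ?_
      rw [smul_eq_mul, pow_succ, mul_comm]
      exact Nat.mul_le_mul_left _ (by omega)
    | succ s ihs =>
      intro U hU
      have hT : (s + 1 + 1).choose 2 = (s + 1).choose 2 + (s + 1) := by
        rw [Nat.choose_succ_succ' (s + 1) 1, Nat.choose_one_right, add_comm]
      rcases Nat.lt_or_ge (u * (a + 1) ^ s) (U.card * a ^ s) with hlt | hge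
      · set Bad := univ.filter (fun x => a * U.card < (a + 1) * (U.filter (col x)).card) with hBad
        have hapos : 0 < a ^ s := by positivity
        have hUu : u ≤ U.card := by
          by_contra hcon
          push Not at hcon
          have h1 : U.card * a ^ s ≤ u * (a + 1) ^ s :=
            Nat.mul_le_mul hcon.le (Nat.pow_le_pow_left (by omega) _)
          omega
        have hBadu : Bad.card ≤ u := by
          have h1 := hbad U
          have h2 : Bad.card * u ≤ u * u := by
            calc Bad.card * u ≤ Bad.card * U.card := Nat.mul_le_mul_left _ hUu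
              _ ≤ u ^ 2 := h1
              _ = u * u := sq u
          exact Nat.le_of_mul_le_mul_right h2 (by omega)
        have hsum := cs_succ col k U
        rw [← sum_filter_add_sum_filter_not U (fun x => x ∈ Bad)] at hsum
        -- bad vertices
        have hb : (∑ x ∈ U.filter (fun x => x ∈ Bad), (cs col k (U.filter (col x))).card) *
            a ^ ((s + 1 + 1).choose 2) ≤ u * ((2 * u) ^ k * (a + 1) ^ ((s + 1 + 1).choose 2)) := by
          rw [sum_mul]
          have h1 : ∀ x ∈ U.filter (fun x => x ∈ Bad), (cs col k (U.filter (col x))).card *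
              a ^ ((s + 1 + 1).choose 2) ≤ (2 * u) ^ k * (a + 1) ^ ((s + 1 + 1).choose 2) := by
            intro x _
            refine ihk (s + 1) _ (le_trans (Nat.mul_le_mul_right _ ?_) hU)
            exact card_le_card (filter_subset _ _)
          refine (sum_le_card_nsmul _ _ _ h1).trans ?_
          rw [smul_eq_mul]
          refine Nat.mul_le_mul_right _ (le_trans (card_le_card ?_) hBadu)
          intro x hx
          exact (mem_filter.1 hx).2
        -- good vertices
        have hg : (∑ x ∈ U.filter (fun x => ¬ x ∈ Bad), (cs col k (U.filter (col x))).card) *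
            a ^ ((s + 1 + 1).choose 2) ≤ u * ((2 * u) ^ k * (a + 1) ^ ((s + 1 + 1).choose 2)) := by
          have h1 : ∀ x ∈ U.filter (fun x => ¬ x ∈ Bad), (cs col k (U.filter (col x))).card *
              a ^ ((s + 1).choose 2) ≤ (2 * u) ^ k * (a + 1) ^ ((s + 1).choose 2) := by
            intro x hx
            have h2 := (mem_filter.1 hx).2
            rw [hBad, mem_filter, not_and, not_lt] at h2
            have h3 := h2 (mem_univ x)
            refine ihk s _ ?_
            have h4 : ((U.filter (col x)).card * a ^ s) * (a + 1) ≤ (u * (a + 1) ^ s) * (a + 1) := by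
              calc ((U.filter (col x)).card * a ^ s) * (a + 1) =
                  ((a + 1) * (U.filter (col x)).card) * a ^ s := by ring
                _ ≤ (a * U.card) * a ^ s := Nat.mul_le_mul_right _ h3
                _ = U.card * a ^ (s + 1) := by rw [pow_succ]; ring
                _ ≤ u * (a + 1) ^ (s + 1) := hU
                _ = (u * (a + 1) ^ s) * (a + 1) := by rw [pow_succ]; ring
            exact Nat.le_of_mul_le_mul_right h4 (by omega)
          calc (∑ x ∈ U.filter (fun x => ¬ x ∈ Bad), (cs col k (U.filter (col x))).card) *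
              a ^ ((s + 1 + 1).choose 2) =
              (∑ x ∈ U.filter (fun x => ¬ x ∈ Bad), (cs col k (U.filter (col x))).card *
                a ^ ((s + 1).choose 2)) * a ^ (s + 1) := by
                rw [hT, pow_add, ← mul_assoc, sum_mul]
            _ ≤ (U.card * ((2 * u) ^ k * (a + 1) ^ ((s + 1).choose 2))) * a ^ (s + 1) := by
                refine Nat.mul_le_mul_right _ ((sum_le_card_nsmul _ _ _ h1).trans ?_)
                rw [smul_eq_mul]
                exact Nat.mul_le_mul_right _ (card_le_card (filter_subset _ _))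
            _ = (U.card * a ^ (s + 1)) * ((2 * u) ^ k * (a + 1) ^ ((s + 1).choose 2)) := by ring
            _ ≤ (u * (a + 1) ^ (s + 1)) * ((2 * u) ^ k * (a + 1) ^ ((s + 1).choose 2)) :=
                Nat.mul_le_mul_right _ hU
            _ = u * ((2 * u) ^ k * (a + 1) ^ ((s + 1 + 1).choose 2)) := by
                rw [hT, pow_add]
                ring
        calc (cs col (k + 1) U).card * a ^ ((s + 1 + 1).choose 2) ≤ _ :=
              Nat.mul_le_mul_right _ hsum
          _ ≤ u * ((2 * u) ^ k * (a + 1) ^ ((s + 1 + 1).choose 2)) +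
              u * ((2 * u) ^ k * (a + 1) ^ ((s + 1 + 1).choose 2)) := by
              rw [add_mul]
              exact Nat.add_le_add hb hg
          _ = _ := by
              rw [pow_succ (2 * u) k]
              ring
      · have h1 := ihs U hge
        have e1 : a ^ ((s + 1 + 1).choose 2) = a ^ ((s + 1).choose 2) * a ^ (s + 1) := by
          rw [hT, pow_add]
        have e2 : (a + 1) ^ ((s + 1 + 1).choose 2) =
            (a + 1) ^ ((s + 1).choose 2) * (a + 1) ^ (s + 1) := by
          rw [hT, pow_add]
        rw [e1, e2]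
        calc (cs col (k + 1) U).card * (a ^ ((s + 1).choose 2) * a ^ (s + 1)) =
            ((cs col (k + 1) U).card * a ^ ((s + 1).choose 2)) * a ^ (s + 1) := by ring
          _ ≤ ((2 * u) ^ (k + 1) * (a + 1) ^ ((s + 1).choose 2)) * (a + 1) ^ (s + 1) :=
              Nat.mul_le_mul h1 (Nat.pow_le_pow_left (by omega) _)
          _ = _ := by ring

/-- The random choice of `n` elements. -/
theorem exists_fam (col : Bool → Ω → Ω → Prop) (a u T : ℕ) (k n : ℕ)
    (hT : ∀ b, (cs (col b) k univ).card * a ^ T ≤ (2 * u) ^ k * (a + 1) ^ T)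
    (h : 2 * n ^ k * (2 * u) ^ k * (a + 1) ^ T < k.factorial * Fintype.card Ω ^ k * a ^ T)
    (hΩ : 0 < Fintype.card Ω) :
    ∃ z : Fin n → Ω, ∀ (b : Bool) (e : Fin k → Fin n), StrictMono e →
      ¬ ∀ i j : Fin k, i < j → col b (z (e i)) (z (e j)) := by
  by_contra hcon
  push Not at hcon
  obtain ⟨P, hP⟩ : ∃ P : Bool → (Fin k → Ω) → Prop, ∀ b z, P b z ↔
      ∀ i j, i < j → col b (z i) (z j) := ⟨_, fun _ _ => Iff.rfl⟩
  have hcov : (univ : Finset (Fin n → Ω)) ⊆ (powersetCard k (univ : Finset (Fin n))).biUnion
      (fun S => (univ : Finset Bool).biUnion (fun b =>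
        if hS : S.card = k then univ.filter (fun z : Fin n → Ω => P b (z ∘ S.orderEmbOfFin hS))
          else ∅)) := by
    intro z _
    obtain ⟨b, e, he, hz⟩ := hcon z
    have hS : (univ.image e).card = k := by
      rw [card_image_of_injective _ he.injective, card_univ, Fintype.card_fin]
    refine mem_biUnion.2 ⟨univ.image e, mem_powersetCard.2 ⟨subset_univ _, hS⟩,
      mem_biUnion.2 ⟨b, mem_univ _, ?_⟩⟩
    rw [dif_pos hS]
    refine mem_filter.2 ⟨mem_univ _, ?_⟩
    rw [hP]
    have he2 : (e : Fin k → Fin n) = (univ.image e).orderEmbOfFin hS :=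
      Finset.orderEmbOfFin_unique hS (fun x => mem_image_of_mem e (mem_univ x)) he
    intro i j hij
    have := hz i j hij
    show col b (z ((univ.image e).orderEmbOfFin hS i)) (z ((univ.image e).orderEmbOfFin hS j))
    rw [← he2]
    exact this
  have hB : ∀ b : Bool, (univ.filter (P b)).card * a ^ T ≤ (2 * u) ^ k * (a + 1) ^ T := by
    intro b
    have h1 := hT b
    have h2 : cs (col b) k univ = univ.filter (P b) := by
      ext z
      rw [cs, mem_filter, mem_filter, hP]
      constructor
      · rintro ⟨h3, -, h4⟩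
        exact ⟨h3, h4⟩
      · rintro ⟨h3, h4⟩
        exact ⟨h3, fun i => mem_univ _, h4⟩
    rw [h2] at h1
    exact h1
  set N := Fintype.card Ω with hN
  have h1 := card_le_card hcov
  rw [card_univ, Fintype.card_fun, Fintype.card_fin] at h1
  have h2 : N ^ n * (N ^ k * a ^ T) ≤ n.choose k * (2 * (N ^ n * ((2 * u) ^ k * (a + 1) ^ T))) := by
    calc N ^ n * (N ^ k * a ^ T) ≤
        (∑ S ∈ powersetCard k (univ : Finset (Fin n)), ∑ b : Bool,
          (if hS : S.card = k then univ.filter (fun z : Fin n → Ω => P b (z ∘ S.orderEmbOfFin hS))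
          else ∅).card) * (N ^ k * a ^ T) := by
          refine Nat.mul_le_mul_right _ (h1.trans (card_biUnion_le.trans
            (sum_le_sum (fun S _ => card_biUnion_le))))
      _ ≤ ∑ S ∈ powersetCard k (univ : Finset (Fin n)),
          (2 * (N ^ n * ((2 * u) ^ k * (a + 1) ^ T))) := by
          rw [sum_mul]
          refine sum_le_sum (fun S hS => ?_)
          rw [sum_mul]
          have hScard := (mem_powersetCard.1 hS).2
          have h3 : ∀ b : Bool,
              (if hS : S.card = k then univ.filter (fun z : Fin n → Ω => P b (z ∘ S.orderEmbOfFin hS))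
                else ∅).card * (N ^ k * a ^ T) ≤ N ^ n * ((2 * u) ^ k * (a + 1) ^ T) := by
            intro b
            rw [dif_pos hScard]
            have h4 := Pool.Agent.N920.RW.count_restrict (S.orderEmbOfFin hScard)
              (S.orderEmbOfFin hScard).injective (P b)
            have h5 := Nat.mul_le_mul_right (a ^ T) h4
            have h6 := Nat.mul_le_mul_left (N ^ n) (hB b)
            calc (univ.filter (fun z : Fin n → Ω => P b (z ∘ S.orderEmbOfFin hScard))).card *
                  (N ^ k * a ^ T) =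
                (univ.filter (fun z : Fin n → Ω => P b (z ∘ S.orderEmbOfFin hScard))).card *
                  Fintype.card Ω ^ k * a ^ T := by rw [mul_assoc]
              _ ≤ (univ.filter (P b)).card * Fintype.card Ω ^ n * a ^ T := h5
              _ = N ^ n * ((univ.filter (P b)).card * a ^ T) := by ring
              _ ≤ _ := h6
          refine (sum_le_card_nsmul _ _ _ (fun b _ => h3 b)).trans ?_
          rw [card_univ, Fintype.card_bool, smul_eq_mul]
      _ = _ := by
          rw [sum_const, card_powersetCard, card_univ, Fintype.card_fin, smul_eq_mul]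
  have hpos : 0 < N ^ n := by positivity
  have h3 : N ^ k * a ^ T ≤ n.choose k * (2 * ((2 * u) ^ k * (a + 1) ^ T)) := by
    refine Nat.le_of_mul_le_mul_left ?_ hpos
    calc N ^ n * (N ^ k * a ^ T) ≤ _ := h2
      _ = _ := by ring
  have h4 : n.choose k * k.factorial ≤ n ^ k := by
    rw [Nat.choose_eq_descFactorial_div_factorial,
      Nat.div_mul_cancel (Nat.factorial_dvd_descFactorial n k)]
    exact Nat.descFactorial_le_pow n k
  have h5 : k.factorial * N ^ k * a ^ T ≤ 2 * n ^ k * (2 * u) ^ k * (a + 1) ^ T := by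
    calc k.factorial * N ^ k * a ^ T = (N ^ k * a ^ T) * k.factorial := by ring
      _ ≤ n.choose k * (2 * ((2 * u) ^ k * (a + 1) ^ T)) * k.factorial := Nat.mul_le_mul_right _ h3
      _ = (n.choose k * k.factorial) * (2 * ((2 * u) ^ k * (a + 1) ^ T)) := by ring
      _ ≤ n ^ k * (2 * ((2 * u) ^ k * (a + 1) ^ T)) := Nat.mul_le_mul_right _ h4
      _ = _ := by ring
  omega

end count

end Pool.Agent.N920.FF
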