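import Pool.Agent.N920.FF.Upper
import Pool.Agent.N920.FF.Lower
import Pool.Agent.N920.TW.Growth

/-!
# Colourings given by symmetric matrices of low rank over a finite field
-/

namespace Pool.Agent.N920.FF

open Finset Real

open Classical

open Pool.Agent.N920.TW (NoMono)

attribute [-instance] instDecidableEqProd

set_option linter.unusedSectionVars false

/-- The graph of the pairs `i ≠ j` with `f (M i j) = true`. -/
def colG {V F : Type*} (f : F → Bool) (M : Matrix V V F) : SimpleGraph V :=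
  SimpleGraph.fromRel (fun i j => f (M i j) = true)

/-- The largest number of vertices of a colouring without monochromatic `K_k` in which the colour
of `{i, j}` is `f (M i j)` for a symmetric matrix `M` over `F` of rank at most `r`. -/
noncomputable def ffOrder {F : Type} [Field F] (f : F → Bool) (k r : ℕ) : ℕ :=
  sSup {n : ℕ | ∃ (V : Type) (_ : Fintype V) (M : Matrix V V F),
    Fintype.card V = n ∧ M.IsSymm ∧ M.rank ≤ r ∧ NoMono (colG f M) k}

/-- The largest number of vertices of a graph without clique and independent set of size `k` whose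
adjacency matrix has rank at most `r` over `F_2`. -/
noncomputable def adjOrder (k r : ℕ) : ℕ :=
  sSup {n : ℕ | ∃ (V : Type) (_ : Fintype V) (G : SimpleGraph V),
    Fintype.card V = n ∧ (G.adjMatrix (ZMod 2)).rank ≤ r ∧ NoMono G k}

section form

variable {F : Type} [Field F] [Fintype F]

/-- The vector space. -/
abbrev Om (F : Type) (m : ℕ) := (Fin m → F) × (Fin m → F)

/-- The hyperbolic form. -/
def hyp {m : ℕ} (x y : Om F m) : F := x.1 ⬝ᵥ y.2 + x.2 ⬝ᵥ y.1

theorem hyp_comm {m : ℕ} (x y : Om F m) : hyp x y = hyp y x := by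
  rw [hyp, hyp, dotProduct_comm x.1 y.2, dotProduct_comm x.2 y.1, add_comm]

theorem hyp_sub {m : ℕ} (x x' y : Om F m) : hyp (x - x') y = hyp x y - hyp x' y := by
  rw [hyp, hyp, hyp, Prod.fst_sub, Prod.snd_sub, sub_dotProduct, sub_dotProduct]
  ring

theorem hyp_add_right {m : ℕ} (x y y' : Om F m) : hyp x (y + y') = hyp x y + hyp x y' := by
  rw [hyp, hyp, hyp, Prod.fst_add, Prod.snd_add, dotProduct_add, dotProduct_add]
  ring

theorem hyp_smul_right {m : ℕ} (x y : Om F m) (c : F) : hyp x (c • y) = c * hyp x y := by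
  rw [hyp, hyp, Prod.smul_fst, Prod.smul_snd, dotProduct_smul, dotProduct_smul, smul_eq_mul,
    smul_eq_mul]
  ring

theorem exists_one {m : ℕ} (z : Om F m) (hz : z ≠ 0) : ∃ y, hyp z y = 1 := by
  by_cases h1 : z.1 = 0
  · have h2 : z.2 ≠ 0 := fun h => hz (Prod.ext h1 h)
    obtain ⟨i, hi⟩ := Function.ne_iff.1 h2
    refine ⟨(Pi.single i (z.2 i)⁻¹, 0), ?_⟩
    rw [hyp]
    have : z.2 i ≠ 0 := hi
    simp [this]
  · obtain ⟨i, hi⟩ := Function.ne_iff.1 h1
    refine ⟨(0, Pi.single i (z.1 i)⁻¹), ?_⟩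
    rw [hyp]
    have : z.1 i ≠ 0 := hi
    simp [this]

theorem hyp_ker {m : ℕ} (z : Om F m) (hz : z ≠ 0) :
    Fintype.card F * (univ.filter (fun y => hyp z y = 0)).card ≤ Fintype.card (Om F m) := by
  obtain ⟨y0, hy0⟩ := exists_one z hz
  rw [← card_univ (α := F), ← card_product, ← card_univ (α := Om F m)]
  refine card_le_card_of_injOn (fun p => p.2 + p.1 • y0) (fun _ _ => mem_coe.2 (mem_univ _)) ?_
  intro p hp p' hp' h
  have h1 := (mem_filter.1 (mem_product.1 (mem_coe.1 hp)).2).2
  have h2 := (mem_filter.1 (mem_product.1 (mem_coe.1 hp')).2).2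
  have h3 : hyp z (p.2 + p.1 • y0) = hyp z (p'.2 + p'.1 • y0) := congrArg (hyp z) h
  rw [hyp_add_right, hyp_add_right, hyp_smul_right, hyp_smul_right, h1, h2, hy0, mul_one, mul_one,
    zero_add, zero_add] at h3
  have h4 : p.2 + p.1 • y0 = p'.2 + p'.1 • y0 := h
  rw [h3] at h4
  exact Prod.ext h3 (add_right_cancel h4)

theorem card_Om (m : ℕ) : Fintype.card (Om F m) = (Fintype.card F ^ m) ^ 2 := by
  rw [Fintype.card_prod, Fintype.card_fun, Fintype.card_fin, sq]

/-- The matrix of a family of vectors. -/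
def mat {m n : ℕ} (z : Fin n → Om F m) : Matrix (Fin n) (Fin n) F :=
  Matrix.of fun i j => hyp (z i) (z j)

theorem mat_symm {m n : ℕ} (z : Fin n → Om F m) : (mat z).IsSymm := by
  ext i j
  exact hyp_comm _ _

theorem mat_rank {m n : ℕ} (z : Fin n → Om F m) : (mat z).rank ≤ 2 * m := by
  have e : mat z = (Matrix.of fun (i : Fin n) (l : Fin m ⊕ Fin m) =>
      Sum.elim (z i).1 (z i).2 l) * (Matrix.of fun (l : Fin m ⊕ Fin m) (j : Fin n) =>
      Sum.elim (z j).2 (z j).1 l) := by
    ext i j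
    rw [Matrix.mul_apply, Fintype.sum_sum_type]
    rfl
  rw [e]
  refine (Matrix.rank_mul_le_left _ _).trans ((Matrix.rank_le_card_width _).trans ?_)
  rw [Fintype.card_sum, Fintype.card_fin]
  omega

/-- The number of monochromatic sequences. -/
theorem cs_bound (f : F → Bool) (hf : ∃ a b, f a ≠ f b) (m k : ℕ) (b : Bool) :
    (cs (fun x y : Om F m => f (hyp x y) = b) k univ).card *
        (2 * Fintype.card F - 1) ^ (((2 * Fintype.card F - 1) * Fintype.card F * m + 1).choose 2) ≤
      (2 * (2 * Fintype.card F ^ (m + 1))) ^ k *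
        (2 * Fintype.card F - 1 + 1) ^
          (((2 * Fintype.card F - 1) * Fintype.card F * m + 1).choose 2) := by
  set q := Fintype.card F with hq
  have hqpos : 2 ≤ q := Fintype.one_lt_card
  set a := 2 * q - 1 with ha
  have hc : ∃ c, f c ≠ b := by
    obtain ⟨x, y, hxy⟩ := hf
    by_cases hx : f x = b
    · exact ⟨y, fun h => hxy (hx.trans h.symm)⟩
    · exact ⟨x, hx⟩
  obtain ⟨c, hc⟩ := hc
  have hqm : 0 < q ^ (m + 1) := Nat.pow_pos (by omega)
  refine kw (fun x y : Om F m => f (hyp x y) = b) a (2 * q ^ (m + 1)) (by omega)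
    (by omega) ?_ k (a * q * m) univ ?_
  · intro U
    have h1 := few_bad (fun x y : Om F m => hyp x y) hyp_sub (fun z hz => hyp_ker z hz) c U
    have h2 : 4 * q ^ 2 * Fintype.card (Om F m) = (2 * q ^ (m + 1)) ^ 2 := by
      rw [card_Om, ← hq]
      ring
    rw [← h2]
    refine le_trans (Nat.mul_le_mul_right _ (card_le_card ?_)) h1
    intro x hx
    have h3' := (mem_filter.1 hx).2
    have h3 : a * U.card < (a + 1) * (U.filter (fun y => f (hyp x y) = b)).card := by
      convert h3'
    refine mem_filter.2 ⟨mem_univ _, ?_⟩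
    rw [← hq]
    have h4 : (U.filter (fun y => f (hyp x y) = b)).card + (U.filter (fun y => hyp x y = c)).card ≤
        U.card := by
      rw [← card_union_of_disjoint]
      · exact card_le_card (union_subset (filter_subset _ _) (filter_subset _ _))
      · rw [disjoint_left]
        intro y hy hy'
        have e1 := (mem_filter.1 hy).2
        have e2 := (mem_filter.1 hy').2
        rw [e2] at e1
        exact hc e1
    have h5 : a + 1 = 2 * q := by omega
    rw [h5] at h3
    have h6 := Nat.mul_le_mul_left (2 * q) h4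
    rw [mul_add] at h6
    have h7 : 2 * q * U.card = a * U.card + U.card := by
      rw [← h5]
      ring
    omega
  · rw [card_univ, card_Om, ← hq]
    -- `q ^ m * a ^ (a q m) ≤ (a + 1) ^ (a q m)`
    have h1 : q * a ^ (a * q) ≤ (a + 1) ^ (a * q) := by
      have hapos : (0 : ℝ) < a := by
        have : 0 < a := by omega
        exact_mod_cast this
      have h2 : (1 : ℝ) + (a * q : ℕ) * (1 / (a : ℝ)) ≤ (1 + 1 / (a : ℝ)) ^ (a * q) :=
        one_add_mul_le_pow (by
          have : 0 < 1 / (a : ℝ) := by positivity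
          linarith) _
      have h3 : ((a * q : ℕ) : ℝ) * (1 / (a : ℝ)) = q := by
        push_cast
        field_simp
      rw [h3] at h2
      have h4 : (q : ℝ) * (a : ℝ) ^ (a * q) ≤ ((a : ℝ) + 1) ^ (a * q) := by
        have e : (1 + 1 / (a : ℝ)) ^ (a * q) * (a : ℝ) ^ (a * q) = ((a : ℝ) + 1) ^ (a * q) := by
          rw [← mul_pow]
          congr 1
          field_simp
        rw [← e]
        apply mul_le_mul_of_nonneg_right _ (by positivity)
        linarith
      exact_mod_cast h4
    have h2 : q ^ m * a ^ (a * q * m) ≤ (a + 1) ^ (a * q * m) := by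
      calc q ^ m * a ^ (a * q * m) = (q * a ^ (a * q)) ^ m := by rw [mul_pow, ← pow_mul]
        _ ≤ ((a + 1) ^ (a * q)) ^ m := Nat.pow_le_pow_left h1 m
        _ = _ := by rw [← pow_mul]
    calc (q ^ m) ^ 2 * a ^ (a * q * m) = q ^ m * (q ^ m * a ^ (a * q * m)) := by ring
      _ ≤ q ^ m * (a + 1) ^ (a * q * m) := Nat.mul_le_mul_left _ h2
      _ ≤ (2 * q ^ (m + 1)) * (a + 1) ^ (a * q * m) := by
        refine Nat.mul_le_mul_right _ ?_
        have : q ^ m ≤ q ^ (m + 1) := Nat.pow_le_pow_right (by omega) (by omega)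
        omega

/-- Random vectors. -/
theorem exists_vec (f : F → Bool) (hf : ∃ a b, f a ≠ f b) (m k n : ℕ)
    (h : 2 * n ^ k * (2 * (2 * Fintype.card F ^ (m + 1))) ^ k *
        (2 * Fintype.card F - 1 + 1) ^ (((2 * Fintype.card F - 1) * Fintype.card F * m + 1).choose 2) <
      k.factorial * ((Fintype.card F ^ m) ^ 2) ^ k *
        (2 * Fintype.card F - 1) ^ (((2 * Fintype.card F - 1) * Fintype.card F * m + 1).choose 2)) :
    ∃ z : Fin n → Om F m, NoMono (colG f (mat z)) k := by
  obtain ⟨z, hz⟩ := exists_fam (Ω := Om F m) (fun b x y => f (hyp x y) = b)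
    (2 * Fintype.card F - 1) (2 * Fintype.card F ^ (m + 1))
    (((2 * Fintype.card F - 1) * Fintype.card F * m + 1).choose 2) k n
    (fun b => cs_bound f hf m k b) (by rw [card_Om]; exact h) Fintype.card_pos
  refine ⟨z, ?_, ?_⟩
  · rintro S ⟨hS1, hS2⟩
    refine hz true (S.orderEmbOfFin hS2) (S.orderEmbOfFin hS2).strictMono ?_
    intro i j hij
    have h1 := (S.orderEmbOfFin hS2).strictMono hij
    have h2 := hS1 (S.orderEmbOfFin_mem hS2 i) (S.orderEmbOfFin_mem hS2 j) h1.ne
    rw [colG, SimpleGraph.fromRel_adj] at h2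
    rcases h2.2 with h3 | h3
    · exact h3
    · rw [show mat z (S.orderEmbOfFin hS2 j) (S.orderEmbOfFin hS2 i) =
        hyp (z (S.orderEmbOfFin hS2 i)) (z (S.orderEmbOfFin hS2 j)) from hyp_comm _ _] at h3
      exact h3
  · rintro S ⟨hS1, hS2⟩
    refine hz false (S.orderEmbOfFin hS2) (S.orderEmbOfFin hS2).strictMono ?_
    intro i j hij
    have h1 := (S.orderEmbOfFin hS2).strictMono hij
    have h2 := hS1 (S.orderEmbOfFin_mem hS2 i) (S.orderEmbOfFin_mem hS2 j) h1.ne
    rw [SimpleGraph.compl_adj, colG, SimpleGraph.fromRel_adj] at h2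
    by_contra hcon
    apply h2.2
    refine ⟨h1.ne, Or.inl ?_⟩
    show f (hyp (z (S.orderEmbOfFin hS2 i)) (z (S.orderEmbOfFin hS2 j))) = true
    rw [Bool.not_eq_false] at hcon
    exact hcon

end form

/-! ### Upper bounds -/

theorem card_lt_of_const {V F : Type} [Fintype V] (f : F → Bool) (M : Matrix V V F) (k : ℕ)
    (hG : NoMono (colG f M) k) (S : Finset V) (c : F) (hS : S.card = k)
    (hc : ∀ i ∈ S, ∀ j ∈ S, i ≠ j → M i j = c) : False := by
  by_cases h : f c = true
  · refine hG.1 S ⟨?_, hS⟩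
    intro i hi j hj hij
    rw [colG, SimpleGraph.fromRel_adj]
    refine ⟨hij, Or.inl ?_⟩
    rw [hc i (mem_coe.1 hi) j (mem_coe.1 hj) hij]
    exact h
  · refine hG.2 S ⟨?_, hS⟩
    intro i hi j hj hij
    rw [SimpleGraph.compl_adj, colG, SimpleGraph.fromRel_adj]
    refine ⟨hij, ?_⟩
    rintro ⟨-, h1 | h1⟩
    · rw [hc i (mem_coe.1 hi) j (mem_coe.1 hj) hij] at h1
      exact h h1
    · rw [hc j (mem_coe.1 hj) i (mem_coe.1 hi) hij.symm] at h1
      exact h h1

theorem ff_card_le {F : Type} [Field F] [Fintype F] (f : F → Bool) {V : Type} [Fintype V]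
    (M : Matrix V V F) (hM : M.IsSymm) (k r : ℕ) (hr : M.rank ≤ r) (hG : NoMono (colG f M) k) :
    Fintype.card V ≤ Fintype.card F ^ (r / 2 + 2) * (k - 1) := by
  by_contra hcon
  push Not at hcon
  obtain ⟨S, c, h1, h2⟩ := exists_const M (fun i j => by
    have := hM.apply i j
    exact this.symm) 2 k
    (fun B _ C hC => exists_isotropic B C hC) (by
      refine lt_of_le_of_lt (Nat.mul_le_mul_right _ (Nat.pow_le_pow_right Fintype.card_pos ?_)) hcon
      omega)
  exact card_lt_of_const f M k hG S c h1 h2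

theorem ffOrder_bdd {F : Type} [Field F] [Fintype F] (f : F → Bool) (k r : ℕ) :
    BddAbove {n : ℕ | ∃ (V : Type) (_ : Fintype V) (M : Matrix V V F),
      Fintype.card V = n ∧ M.IsSymm ∧ M.rank ≤ r ∧ NoMono (colG f M) k} := by
  refine ⟨Fintype.card F ^ (r / 2 + 2) * (k - 1), ?_⟩
  rintro n ⟨V, hV, M, rfl, h1, h2, h3⟩
  exact ff_card_le f M h1 k r h2 h3

theorem ffOrder_le {F : Type} [Field F] [Fintype F] (f : F → Bool) (k r : ℕ) :
    ffOrder f k r ≤ Fintype.card F ^ (r / 2 + 2) * (k - 1) := by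
  rw [ffOrder]
  apply csSup_le'
  rintro n ⟨V, hV, M, rfl, h1, h2, h3⟩
  exact ff_card_le f M h1 k r h2 h3

/-- The colour rule of adjacency matrices. -/
def f2 : ZMod 2 → Bool := fun x => decide (x = 1)

theorem f2_iff (x : ZMod 2) : f2 x = true ↔ x = 1 := decide_eq_true_iff

theorem colG_adj {V F : Type*} (f : F → Bool) (M : Matrix V V F) (i j : V) :
    (colG f M).Adj i j ↔ i ≠ j ∧ (f (M i j) = true ∨ f (M j i) = true) :=
  SimpleGraph.fromRel_adj _ _ _

theorem adjM_one {V : Type} [Fintype V] (G : SimpleGraph V) (i j : V) :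
    G.adjMatrix (ZMod 2) i j = 1 ↔ G.Adj i j := by
  rw [SimpleGraph.adjMatrix_apply]
  by_cases h : G.Adj i j
  · rw [if_pos h]
    exact ⟨fun _ => h, fun _ => rfl⟩
  · rw [if_neg h]
    exact ⟨fun h' => absurd h' (by decide), fun h' => absurd h' h⟩

theorem adj_eq {V : Type} [Fintype V] (G : SimpleGraph V) :
    colG f2 (G.adjMatrix (ZMod 2)) = G := by
  ext i j
  rw [colG_adj, f2_iff, f2_iff, adjM_one, adjM_one]
  constructor
  · rintro ⟨-, h | h⟩
    · exact h
    · exact h.symm
  · intro h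
    exact ⟨h.ne, Or.inl h⟩

theorem adj_card_le {V : Type} [Fintype V] (G : SimpleGraph V) (k r : ℕ)
    (hr : (G.adjMatrix (ZMod 2)).rank ≤ r) (hG : NoMono G k) :
    Fintype.card V ≤ 2 ^ (r / 2 + 1) * (k - 1) := by
  by_contra hcon
  push Not at hcon
  set M := G.adjMatrix (ZMod 2) with hM
  have hsymm : ∀ i j, M i j = M j i := by
    intro i j
    rw [hM, SimpleGraph.adjMatrix_apply, SimpleGraph.adjMatrix_apply, G.adj_comm]
  have hdiag : ∀ i, M i i = 0 := by
    intro i
    rw [hM, SimpleGraph.adjMatrix_apply, if_neg (G.loopless.irrefl i)]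
  obtain ⟨S, c, h1, h2⟩ := exists_const M hsymm 0 k
    (fun B hB C hC => by
      have hne : C ≠ ⊥ := by
        intro h
        rw [h, finrank_bot] at hC
        omega
      obtain ⟨x, hx, hx0⟩ := Submodule.exists_mem_ne_zero_of_ne_bot hne
      refine ⟨x, hx, hx0, ?_⟩
      rw [hB, dotProduct]
      have e1 : ∑ i, x i * M.mulVec x i = ∑ p ∈ (univ : Finset V) ×ˢ (univ : Finset V),
          x p.1 * (M p.1 p.2 * x p.2) := by
        rw [sum_product]
        refine sum_congr rfl (fun i _ => ?_)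
        rw [Matrix.mulVec, dotProduct, mul_sum]
      rw [e1]
      refine sum_involution (fun p _ => (p.2, p.1)) ?_ ?_ ?_ ?_
      · intro p _
        show x p.1 * (M p.1 p.2 * x p.2) + x p.2 * (M p.2 p.1 * x p.1) = 0
        rw [hsymm p.2 p.1]
        have e2 : x p.1 * (M p.1 p.2 * x p.2) + x p.2 * (M p.1 p.2 * x p.1) =
            2 * (x p.1 * (M p.1 p.2 * x p.2)) := by ring
        rw [e2, show (2 : ZMod 2) = 0 from rfl, zero_mul]
      · intro p _ hp heq
        apply hp
        have e3 : p.2 = p.1 := congrArg Prod.fst heq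
        rw [e3, hdiag]
        simp
      · intro p _
        exact mem_product.2 ⟨mem_univ _, mem_univ _⟩
      · intro p _
        rfl) (by
      rw [ZMod.card]
      refine lt_of_le_of_lt (Nat.mul_le_mul_right _ (Nat.pow_le_pow_right (by norm_num) ?_)) hcon
      omega)
  refine card_lt_of_const f2 M k ?_ S c h1 h2
  rw [hM, adj_eq]
  exact hG

theorem adjOrder_bdd (k r : ℕ) :
    BddAbove {n : ℕ | ∃ (V : Type) (_ : Fintype V) (G : SimpleGraph V),
      Fintype.card V = n ∧ (G.adjMatrix (ZMod 2)).rank ≤ r ∧ NoMono G k} := by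
  refine ⟨2 ^ (r / 2 + 1) * (k - 1), ?_⟩
  rintro n ⟨V, hV, G, rfl, h1, h2⟩
  exact adj_card_le G k r h1 h2

theorem adjOrder_le (k r : ℕ) : adjOrder k r ≤ 2 ^ (r / 2 + 1) * (k - 1) := by
  rw [adjOrder]
  apply csSup_le'
  rintro n ⟨V, hV, G, rfl, h1, h2⟩
  exact adj_card_le G k r h1 h2

/-! ### Lower bounds -/

theorem le_ffOrder {F : Type} [Field F] [Fintype F] (f : F → Bool) (hf : ∃ a b, f a ≠ f b)
    (m k n r : ℕ) (hr : 2 * m ≤ r)
    (h : 2 * n ^ k * (2 * (2 * Fintype.card F ^ (m + 1))) ^ k *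
        (2 * Fintype.card F - 1 + 1) ^ (((2 * Fintype.card F - 1) * Fintype.card F * m + 1).choose 2) <
      k.factorial * ((Fintype.card F ^ m) ^ 2) ^ k *
        (2 * Fintype.card F - 1) ^ (((2 * Fintype.card F - 1) * Fintype.card F * m + 1).choose 2)) :
    n ≤ ffOrder f k r := by
  obtain ⟨z, hz⟩ := exists_vec f hf m k n h
  refine le_csSup (ffOrder_bdd f k r) ⟨Fin n, inferInstance, mat z, Fintype.card_fin n, mat_symm z,
    (mat_rank z).trans hr, hz⟩

theorem le_adjOrder (m k n r : ℕ) (hr : 2 * m ≤ r)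
    (h : 2 * n ^ k * (2 * (2 * Fintype.card (ZMod 2) ^ (m + 1))) ^ k *
        (2 * Fintype.card (ZMod 2) - 1 + 1) ^
          (((2 * Fintype.card (ZMod 2) - 1) * Fintype.card (ZMod 2) * m + 1).choose 2) <
      k.factorial * ((Fintype.card (ZMod 2) ^ m) ^ 2) ^ k *
        (2 * Fintype.card (ZMod 2) - 1) ^
          (((2 * Fintype.card (ZMod 2) - 1) * Fintype.card (ZMod 2) * m + 1).choose 2)) :
    n ≤ adjOrder k r := by
  obtain ⟨z, hz⟩ := exists_vec (F := ZMod 2) f2 ⟨0, 1, by decide⟩ m k n h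
  have e : (colG f2 (mat z)).adjMatrix (ZMod 2) = mat z := by
    ext i j
    by_cases hij : i = j
    · subst hij
      rw [SimpleGraph.adjMatrix_apply, if_neg ((colG _ _).loopless.irrefl i)]
      show 0 = hyp (z i) (z i)
      rw [hyp, dotProduct_comm (z i).2 (z i).1]
      generalize (z i).1 ⬝ᵥ (z i).2 = x
      revert x
      decide
    · have h1 : (colG f2 (mat z)).Adj i j ↔ mat z i j = 1 := by
        rw [colG_adj, f2_iff, f2_iff]
        have h2 : mat z j i = mat z i j := hyp_comm _ _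
        rw [h2, or_self]
        exact ⟨fun h => h.2, fun h => ⟨hij, h⟩⟩
      rw [← adjM_one] at h1
      generalize mat z i j = x at h1 ⊢
      generalize (colG f2 (mat z)).adjMatrix (ZMod 2) i j = y at h1 ⊢
      revert h1
      revert x y
      decide
  refine le_csSup (adjOrder_bdd k r) ⟨Fin n, inferInstance, _, Fintype.card_fin n, ?_, hz⟩
  rw [e]
  exact (mat_rank z).trans hr

end Pool.Agent.N920.FF
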