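import Mathlib

/-!
# Symmetric matrices of low rank over a finite field: large constant principal submatrices
-/

namespace Pool.Agent.N920.FF

open Finset Module

section iso

variable {F : Type*} [Field F] {E : Type*} [AddCommGroup E] [Module F E] [FiniteDimensional F E]

/-- A large totally isotropic subspace. -/
theorem exists_iso (B : LinearMap.BilinForm F E) (hB : ∀ x y, B x y = B y x) (d : ℕ)
    (hd : ∀ C : Submodule F E, d + 1 ≤ finrank F C → ∃ x ∈ C, x ≠ 0 ∧ B x x = 0) :
    ∃ W : Submodule F E, (∀ x ∈ W, ∀ y ∈ W, B x y = 0) ∧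
      finrank F E + finrank F (LinearMap.ker B) ≤ 2 * finrank F W + d := by
  set S : Set ℕ := {m | ∃ W : Submodule F E, (∀ x ∈ W, ∀ y ∈ W, B x y = 0) ∧ finrank F W = m}
    with hS
  have hne : S.Nonempty := by
    refine ⟨0, ⊥, ?_, finrank_bot F E⟩
    intro x hx y _
    rw [Submodule.mem_bot] at hx
    rw [hx]
    simp
  have hbdd : BddAbove S := by
    refine ⟨finrank F E, ?_⟩
    rintro m ⟨W, -, rfl⟩
    exact Submodule.finrank_le W
  obtain ⟨W, hW, hWm⟩ := Nat.sSup_mem hne hbdd
  have hmax : ∀ W' : Submodule F E, (∀ x ∈ W', ∀ y ∈ W', B x y = 0) → finrank F W' ≤ finrank F W := by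
    intro W' hW'
    rw [hWm]
    exact le_csSup hbdd ⟨W', hW', rfl⟩
  refine ⟨W, hW, ?_⟩
  have hker : LinearMap.ker B ≤ W := by
    have hiso : ∀ x ∈ W ⊔ LinearMap.ker B, ∀ y ∈ W ⊔ LinearMap.ker B, B x y = 0 := by
      intro x hx y hy
      obtain ⟨a, ha, u, hu, rfl⟩ := Submodule.mem_sup.1 hx
      obtain ⟨b, hb, v, hv, rfl⟩ := Submodule.mem_sup.1 hy
      have hu' : ∀ z, B u z = 0 := fun z => by
        rw [LinearMap.mem_ker.1 hu]
        rfl
      have hv' : ∀ z, B v z = 0 := fun z => by
        rw [LinearMap.mem_ker.1 hv]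
        rfl
      have h1 : B a v = 0 := by rw [hB a v, hv']
      simp only [map_add, LinearMap.add_apply, hu', hW a ha b hb, h1, add_zero]
    have h1 := hmax _ hiso
    have h2 : W = W ⊔ LinearMap.ker B := Submodule.eq_of_le_of_finrank_le le_sup_left h1
    rw [h2]
    exact le_sup_right
  have hperp : finrank F (B.orthogonal W) ≤ finrank F W + d := by
    by_contra hcon
    push Not at hcon
    have hWP : W ≤ B.orthogonal W := fun x hx y hy => hW y hy x hx
    obtain ⟨Q, hQ⟩ := Submodule.exists_isCompl W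
    have hmod : B.orthogonal W ≤ W ⊔ (Q ⊓ B.orthogonal W) := by
      intro x hx
      have hx' : x ∈ W ⊔ Q := by
        rw [hQ.sup_eq_top]
        exact Submodule.mem_top
      obtain ⟨a, ha, b, hb, rfl⟩ := Submodule.mem_sup.1 hx'
      refine Submodule.mem_sup.2 ⟨a, ha, b, ⟨hb, ?_⟩, rfl⟩
      have : b = (a + b) - a := by abel
      rw [this]
      exact Submodule.sub_mem _ hx (hWP ha)
    have h1 : finrank F (B.orthogonal W) ≤ finrank F W + finrank F (Q ⊓ B.orthogonal W : Submodule F E) :=
      (Submodule.finrank_mono hmod).trans (Submodule.finrank_add_le_finrank_add_finrank _ _)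
    obtain ⟨x, hx, hx0, hxx⟩ := hd (Q ⊓ B.orthogonal W) (by omega)
    have hxW : x ∉ W := by
      intro h
      apply hx0
      have : x ∈ W ⊓ Q := ⟨h, hx.1⟩
      rw [hQ.inf_eq_bot] at this
      exact (Submodule.mem_bot F).1 this
    have hxP : ∀ w ∈ W, B w x = 0 := hx.2
    have hiso : ∀ y ∈ W ⊔ Submodule.span F {x}, ∀ z ∈ W ⊔ Submodule.span F {x}, B y z = 0 := by
      intro y hy z hz
      obtain ⟨a, ha, u, hu, rfl⟩ := Submodule.mem_sup.1 hy
      obtain ⟨b, hb, v, hv, rfl⟩ := Submodule.mem_sup.1 hz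
      obtain ⟨s, rfl⟩ := Submodule.mem_span_singleton.1 hu
      obtain ⟨t, rfl⟩ := Submodule.mem_span_singleton.1 hv
      have h1 : B x b = 0 := by rw [hB x b, hxP b hb]
      simp only [map_add, LinearMap.add_apply, hW a ha b hb, map_smul, LinearMap.smul_apply,
        hxP a ha, h1, hxx, smul_zero, add_zero]
    have h2 := hmax _ hiso
    have h3 : W < W ⊔ Submodule.span F {x} := by
      refine lt_of_le_of_ne le_sup_left ?_
      intro h
      apply hxW
      rw [h]
      exact (le_sup_right : Submodule.span F {x} ≤ _) (Submodule.mem_span_singleton_self x)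
    have h4 := Submodule.finrank_lt_finrank_of_lt h3
    omega
  have h1 := LinearMap.BilinForm.finrank_add_finrank_orthogonal' (B := B) W
  have h2 : W ⊓ LinearMap.ker B = LinearMap.ker B := inf_eq_right.2 hker
  have h3 : finrank F (W ⊓ LinearMap.ker B : Submodule F E) = finrank F (LinearMap.ker B) := by
    rw [h2]
  omega

/-- Quadratic forms in at least three variables over a finite field have a nontrivial zero. -/
theorem exists_isotropic [Fintype F] (B : LinearMap.BilinForm F E) (C : Submodule F E)
    (h : 3 ≤ finrank F C) : ∃ x ∈ C, x ≠ 0 ∧ B x x = 0 := by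
  classical
  by_contra hcon
  push Not at hcon
  set m := finrank F C with hm
  set b : Basis (Fin m) F C := finBasis F C with hb
  set P : MvPolynomial (Fin m) F :=
    ∑ i, ∑ j, MvPolynomial.C (B (b i) (b j)) * (MvPolynomial.X i * MvPolynomial.X j) with hP
  have hdeg : P.totalDegree < Fintype.card (Fin m) := by
    rw [Fintype.card_fin]
    refine lt_of_le_of_lt ?_ (show 2 < m by omega)
    rw [hP]
    refine MvPolynomial.totalDegree_finsetSum_le (fun i _ => ?_)
    refine MvPolynomial.totalDegree_finsetSum_le (fun j _ => ?_)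
    refine (MvPolynomial.totalDegree_mul _ _).trans ?_
    rw [MvPolynomial.totalDegree_C, zero_add]
    refine (MvPolynomial.totalDegree_mul _ _).trans ?_
    rw [MvPolynomial.totalDegree_X, MvPolynomial.totalDegree_X]
  have heval : ∀ v : Fin m → F, MvPolynomial.eval v P =
      B ((∑ i, v i • b i : C) : E) ((∑ i, v i • b i : C) : E) := by
    intro v
    rw [hP]
    push_cast
    simp only [map_sum, map_smul, LinearMap.sum_apply, LinearMap.smul_apply, smul_eq_mul, map_mul,
      MvPolynomial.eval_C, MvPolynomial.eval_X]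
    rw [sum_comm]
    refine sum_congr rfl (fun i _ => ?_)
    rw [mul_sum]
    refine sum_congr rfl (fun j _ => ?_)
    ring
  obtain ⟨p, hp⟩ := CharP.exists F
  have hprime : p.Prime := CharP.char_is_prime F p
  have hdvd := char_dvd_card_solutions p hdeg
  have hone : Fintype.card {x : Fin m → F // MvPolynomial.eval x P = 0} = 1 := by
    rw [Fintype.card_eq_one_iff]
    refine ⟨⟨0, ?_⟩, ?_⟩
    · rw [heval]
      simp
    · rintro ⟨v, hv⟩
      rw [Subtype.mk.injEq]
      rw [heval] at hv
      by_contra hv0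
      have hx : ((∑ i, v i • b i : C) : E) ≠ 0 := by
        intro h0
        have h1 : (∑ i, v i • b i : C) = 0 := by
          exact_mod_cast h0
        have h2 := Fintype.linearIndependent_iff.1 b.linearIndependent v h1
        exact hv0 (funext h2)
      exact hcon _ (∑ i, v i • b i : C).2 hx hv
  rw [hone] at hdvd
  exact hprime.one_lt.ne' (Nat.dvd_one.1 hdvd)

end iso

variable {F : Type*} [Field F] [Fintype F] {V : Type*} [Fintype V]

/-- A symmetric matrix of low rank has a large principal submatrix which is constant off the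
diagonal. -/
theorem exists_const (M : Matrix V V F) (hM : ∀ i j, M i j = M j i) (d k : ℕ)
    (hd : ∀ (B : LinearMap.BilinForm F (V → F)), (∀ x y, B x y = x ⬝ᵥ M.mulVec y) →
      ∀ C : Submodule F (V → F), d + 1 ≤ finrank F C → ∃ x ∈ C, x ≠ 0 ∧ B x x = 0)
    (h : Fintype.card F ^ ((M.rank + d) / 2 + 1) * (k - 1) < Fintype.card V) :
    ∃ (S : Finset V) (c : F), S.card = k ∧ ∀ i ∈ S, ∀ j ∈ S, i ≠ j → M i j = c := by
  classical
  set B : LinearMap.BilinForm F (V → F) := Matrix.toBilin' M with hBdef
  have hBapp : ∀ x y, B x y = x ⬝ᵥ M.mulVec y := fun x y => Matrix.toBilin'_apply' M x y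
  have hsymm : ∀ x y, B x y = B y x := by
    intro x y
    rw [hBapp, hBapp, Matrix.dotProduct_mulVec, dotProduct_comm, ← Matrix.mulVec_transpose]
    have : M.transpose = M := by
      ext i j
      rw [Matrix.transpose_apply]
      exact hM j i
    rw [this]
  obtain ⟨W, hW, hdim⟩ := exists_iso B hsymm d (hd B hBapp)
  have hker : Fintype.card V ≤ M.rank + finrank F (LinearMap.ker B) := by
    have h1 := LinearMap.finrank_range_add_finrank_ker M.mulVecLin
    have h2 : LinearMap.ker M.mulVecLin ≤ LinearMap.ker B := by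
      intro x hx
      rw [LinearMap.mem_ker] at hx ⊢
      ext y
      have h3 : B x (Pi.single y 1) = 0 := by
        rw [hsymm, hBapp]
        have : M.mulVec x = 0 := hx
        rw [this, dotProduct_zero]
      simpa using h3
    have h3 := Submodule.finrank_mono h2
    have h4 : finrank F (V → F) = Fintype.card V := by simp
    have h5 : M.rank = finrank F (LinearMap.range M.mulVecLin) := rfl
    omega
  have hE : finrank F (V → F) = Fintype.card V := by simp
  have hWle := Submodule.finrank_le W
  have hquot : finrank F ((V → F) ⧸ W) ≤ (M.rank + d) / 2 := by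
    have h1 := Submodule.finrank_quotient_add_finrank W
    rw [Nat.le_div_iff_mul_le (by norm_num)]
    omega
  have hfin : Finite ((V → F) ⧸ W) := Module.finite_of_finite F
  have := Fintype.ofFinite ((V → F) ⧸ W)
  have hcardq : Fintype.card ((V → F) ⧸ W) ≤ Fintype.card F ^ ((M.rank + d) / 2) := by
    rw [Module.card_eq_pow_finrank (K := F) (V := (V → F) ⧸ W)]
    exact Nat.pow_le_pow_right Fintype.card_pos hquot
  set ρ : ((V → F) ⧸ W) → (V → F) := fun c => Quotient.out c with hρ
  have hρmk : ∀ c, Submodule.Quotient.mk (ρ c) = c := fun c => Quotient.out_eq' c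
  set e : V → (V → F) := fun i => Pi.single i 1 with he
  set g : V → ((V → F) ⧸ W) × F := fun i =>
    (Submodule.Quotient.mk (e i), B (ρ (Submodule.Quotient.mk (e i))) (e i)) with hg
  have hpig : Fintype.card (((V → F) ⧸ W) × F) * (k - 1) < Fintype.card V := by
    refine lt_of_le_of_lt (Nat.mul_le_mul_right _ ?_) h
    rw [Fintype.card_prod, pow_succ]
    exact Nat.mul_le_mul_right _ hcardq
  obtain ⟨⟨c, a⟩, hca⟩ := Fintype.exists_lt_card_fiber_of_mul_lt_card g hpig
  have hk : k ≤ (univ.filter (fun x => g x = (c, a))).card := by omega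
  obtain ⟨S, hS, hSk⟩ := Finset.exists_subset_card_eq hk
  refine ⟨S, a + a - B (ρ c) (ρ c), hSk, ?_⟩
  intro i hi j hj _
  have key : ∀ i ∈ S, e i - ρ c ∈ W ∧ B (ρ c) (e i) = a := by
    intro i hi
    have h1 := (mem_filter.1 (hS hi)).2
    obtain ⟨h2, h3⟩ := Prod.ext_iff.1 h1
    have h2' : (Submodule.Quotient.mk (e i) : (V → F) ⧸ W) = c := h2
    have h3' : B (ρ (Submodule.Quotient.mk (e i))) (e i) = a := h3
    rw [h2'] at h3'
    refine ⟨?_, h3'⟩
    rw [← Submodule.Quotient.eq, hρmk]
    exact h2'
  obtain ⟨i1, i2⟩ := key i hi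
  obtain ⟨j1, j2⟩ := key j hj
  have h0 := hW _ i1 _ j1
  have hMij : M i j = B (e i) (e j) := by
    rw [hBdef, he]
    simp
  rw [hMij]
  simp only [map_sub, LinearMap.sub_apply] at h0
  rw [hsymm (e i) (ρ c), i2, j2] at h0
  linear_combination h0

end Pool.Agent.N920.FF
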